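import Mathlib
import Pool.Agent.N248.KS.E
set_option autoImplicit false

/-!
# Kakeya sets in sparse random regions

Divide `ℝ^n` into the cells `δ (j + [0,1)^n)` and choose the cells at random, independently, each with
probability `δ^τ`, `0 ≤ τ < 1`. The union `Ω` of the chosen cells is a random set of density `δ^τ`; it
contains the proportion `δ^τ` of a typical tube of width `δ`, and `τ = 1` is the density at which a
tube contains only one chosen cell.

**Theorem.** Let `0 ≤ τ < 1` and `γ ≥ 0`. The discretised Kakeya bound `|W| ≥ c δ^(γ+ε)` (for all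
`W` which contain a fixed proportion of a tube of width `δ` in each of `c δ^(-(n-1))` directions) is
equivalent to the same bound relative to random sets of density `δ^τ`: with high probability
`|W| ≥ c δ^τ δ^(γ+ε)` for all `W` inside `Ω` at once which contain the proportion `c δ^τ` of
a tube in each of `c δ^(-(n-1))` directions. It is true with `γ = (n-2)/2`, and for `n ≥ 10` with
`γ = 17(n-1)/42`. If it is true with `γ = 0` for one `τ < 1`, then every Kakeya set has lower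
Minkowski dimension `n`.
-/

namespace Pool.Agent.Results.MP_b1773a_an.RandomRegions

open MeasureTheory Set Metric ProbabilityTheory
open scoped ENNReal

/-- `R^n`. -/
abbrev E (n : ℕ) := EuclideanSpace ℝ (Fin n)

/-- The closed cylinder of length `1` and radius `δ` with centre `a` and axis direction `e`. -/
def tube {n : ℕ} (δ : ℝ) (a e : E n) : Set (E n) :=
  {y | |inner ℝ (y - a) e| ≤ 1 / 2 ∧ ‖(y - a) - (inner ℝ (y - a) e) • e‖ ≤ δ}

/-- The cell `δ (j + [0,1)^n)`. -/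
def cell {n : ℕ} (δ : ℝ) (j : Fin n → ℤ) : Set (E n) :=
  {x | ∀ i, δ * j i ≤ x i ∧ x i < δ * (j i + 1)}

/-- Independent events `A j` (the cell `j` is chosen) of probability `lam`. -/
structure RandomCells {n : ℕ} {Ω : Type} [MeasurableSpace Ω] (P : Measure Ω)
    (A : (Fin n → ℤ) → Set Ω) (lam : ℝ) : Prop where
  meas : ∀ j, MeasurableSet (A j)
  indep : iIndepSet A P
  prob : ∀ j, P (A j) = ENNReal.ofReal lam

/-- The part of the union of the chosen cells in the ball of radius `R`. -/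
def region {n : ℕ} {Ω : Type} (δ R : ℝ) (A : (Fin n → ℤ) → Set Ω) (x : Ω) : Set (E n) :=
  (⋃ j ∈ {j | x ∈ A j}, cell δ j) ∩ closedBall 0 R

/-- `S` is a set of at least `c δ ^ (-(n - 1))` directions with distances at least `δ`. -/
def Directions {n : ℕ} (c δ : ℝ) (S : Finset (sphere (0 : E n) 1)) : Prop :=
  (∀ e ∈ S, ∀ e' ∈ S, e ≠ e' → δ ≤ ‖(e : E n) - (e' : E n)‖) ∧
    c * (δ ^ (n - 1))⁻¹ ≤ (S.card : ℝ)

/-- For each direction of `S` the set `W` contains the proportion `c` of some tube. -/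
def MeetsTubes {n : ℕ} (c δ : ℝ) (S : Finset (sphere (0 : E n) 1)) (W : Set (E n)) : Prop :=
  ∀ e ∈ S, ∃ a : E n, ENNReal.ofReal c * volume (tube δ a (e : E n)) ≤
    volume (W ∩ tube δ a (e : E n))

/-- The discretised Kakeya bound `|W| ≥ c' δ ^ (γ + ε)`. -/
def KakeyaBound (n : ℕ) (γ : ℝ) : Prop :=
  ∀ c ε R : ℝ, 0 < c → 0 < ε → 0 < R → ∃ c' : ℝ, 0 < c' ∧ ∀ δ : ℝ, 0 < δ → δ < 1 →
    ∀ S : Finset (sphere (0 : E n) 1), Directions c δ S → ∀ W : Set (E n), MeasurableSet W →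
      W ⊆ closedBall 0 R → MeetsTubes c δ S W → ENNReal.ofReal (c' * δ ^ (γ + ε)) ≤ volume W

/-- The Kakeya bound relative to random regions of density `δ ^ τ`: outside an event of probability at
most `C δ ^ B`, all subsets `W` of the region which contain the proportion `c δ ^ τ` of a tube for
each direction of `S`, `S` any set of directions as above, satisfy
`|W| ≥ c' δ ^ τ δ ^ (γ + ε)`. -/
def RandomKakeyaBound (n : ℕ) (τ γ : ℝ) : Prop :=
  ∀ c ε R B : ℝ, 0 < c → 0 < ε → 0 < R → 0 < B → ∃ c' C : ℝ, 0 < c' ∧ 0 < C ∧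
    ∀ δ : ℝ, 0 < δ → δ < 1 →
    ∀ (Ω : Type) [MeasurableSpace Ω] (P : Measure Ω) [IsProbabilityMeasure P]
      (A : (Fin n → ℤ) → Set Ω), RandomCells P A (δ ^ τ) →
      P {x | ¬ ∀ S : Finset (sphere (0 : E n) 1), Directions c δ S → ∀ W : Set (E n),
        MeasurableSet W → W ⊆ region δ R A x → MeetsTubes (c * δ ^ τ) δ S W →
          ENNReal.ofReal (c' * δ ^ (τ + γ + ε)) ≤ volume W} ≤ ENNReal.ofReal (C * δ ^ B)

/-- A Kakeya set: compact, with a unit segment in every direction. -/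
def IsKakeya {n : ℕ} (K : Set (E n)) : Prop :=
  IsCompact K ∧ ∀ e : E n, ‖e‖ = 1 → ∃ a : E n, ∀ t ∈ Icc (0 : ℝ) 1, a + t • e ∈ K

/-- For `n ≥ 2` and `0 ≤ τ < 1`:
(1) for `γ ≥ 0` the Kakeya bound with exponent `γ` is equivalent to the Kakeya bound with exponent
`γ` relative to random regions of density `δ ^ τ`;
(2) the relative bound holds with `γ = (n - 2) / 2` if `n ≥ 3`, and with `γ = 17 (n - 1) / 42` if
`n ≥ 10`;
(3) if the relative bound holds for some `γ ≥ 0`, then the neighbourhoods of every Kakeya set have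
volume at least `c δ ^ (γ + ε)` for all `ε > 0`; for `γ = 0` this is the conclusion of Q2. -/
theorem result (n : ℕ) (hn : 2 ≤ n) (τ : ℝ) (hτ : 0 ≤ τ) (hτ1 : τ < 1) :
    (∀ γ : ℝ, 0 ≤ γ → (KakeyaBound n γ ↔ RandomKakeyaBound n τ γ)) ∧
    (3 ≤ n → RandomKakeyaBound n τ (((n : ℝ) - 2) / 2)) ∧
    (10 ≤ n → RandomKakeyaBound n τ (17 / 42 * ((n : ℝ) - 1))) ∧
    ∀ γ : ℝ, 0 ≤ γ → RandomKakeyaBound n τ γ → ∀ K : Set (E n), IsKakeya K →
      ∀ ε : ℝ, 0 < ε → ∃ c : ℝ, 0 < c ∧ ∀ δ : ℝ, 0 < δ → δ < 1 →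
        ENNReal.ofReal (c * δ ^ (γ + ε)) ≤ volume (thickening δ K) := by
  obtain ⟨d, rfl⟩ : ∃ d, n = d + 1 := ⟨n - 1, by omega⟩
  have hd : 1 ≤ d := by omega
  have hcast : ((d + 1 : ℕ) : ℝ) = (d : ℝ) + 1 := by push_cast; ring
  have keyK : ∀ γ : ℝ, KakeyaBound (d + 1) γ ↔ Pool.Agent.N248.KS.KD d γ := fun γ => Iff.rfl
  have keyR : ∀ γ : ℝ, RandomKakeyaBound (d + 1) τ γ ↔ Pool.Agent.N248.KS.RKD d τ γ := by
    intro γ
    constructor
    · intro h c ε R B hc hε hR hB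
      obtain ⟨c', C, hc', hC, h⟩ := h c ε R B hc hε hR hB
      exact ⟨c', C, hc', hC, fun δ hδ hδ1 Ω _ P _ A hA =>
        h δ hδ hδ1 Ω P A ⟨hA.meas, hA.indep, hA.prob⟩⟩
    · intro h c ε R B hc hε hR hB
      obtain ⟨c', C, hc', hC, h⟩ := h c ε R B hc hε hR hB
      exact ⟨c', C, hc', hC, fun δ hδ hδ1 Ω _ P _ A hA =>
        h δ hδ hδ1 Ω P A ⟨hA.meas, hA.indep, hA.prob⟩⟩
  have heq : ∀ γ : ℝ, 0 ≤ γ → (KakeyaBound (d + 1) γ ↔ RandomKakeyaBound (d + 1) τ γ) := by
    intro γ hγ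
    rw [keyK, keyR]
    exact ⟨Pool.Agent.N248.KS.fwd hd hτ hτ1 hγ, Pool.Agent.N248.KS.bwd hτ hτ1 hγ⟩
  refine ⟨heq, ?_, ?_, ?_⟩
  · intro h3
    have h2 : (2 : ℝ) ≤ d := by
      have : 2 ≤ d := by omega
      exact_mod_cast this
    have e1 : (((d + 1 : ℕ) : ℝ) - 2) / 2 = ((d : ℝ) - 1) / 2 := by rw [hcast]; ring
    rw [e1]
    refine (heq _ (by linarith)).1 ((keyK _).2 ?_)
    exact Pool.Agent.N248.KS.KD_of_KB hd (p := ((d : ℝ) + 3) / 2) (by linarith) (by linarith)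
      (Pool.Agent.N248.KG.kb_wolff (by omega) le_rfl)
  · intro h10
    have h2 : (9 : ℝ) ≤ d := by
      have : 9 ≤ d := by omega
      exact_mod_cast this
    have e1 : 17 / 42 * (((d + 1 : ℕ) : ℝ) - 1) = 17 / 42 * (d : ℝ) := by rw [hcast]; ring
    rw [e1]
    refine (heq _ (by positivity)).1 ((keyK _).2 ?_)
    exact Pool.Agent.N248.KS.KD_of_KB hd (p := 1 + 25 / 42 * (d : ℝ)) (by linarith)
      (by positivity) (Pool.Agent.N248.KG.kb_hybrid (by omega) le_rfl)
  · intro γ hγ h K hK ε hε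
    obtain ⟨R, hR⟩ := hK.1.isBounded.subset_closedBall (0 : E (d + 1))
    exact Pool.Agent.N248.KS.kakeya hd ((keyK γ).1 ((heq γ hγ).2 h)) K R hR hK.2 ε hε

end Pool.Agent.Results.MP_b1773a_an.RandomRegions
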