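import Pool.Agent.N240.S.SumFin
import Pool.Agent.N240.TS.Fam

/-!
# MP_b1773a: sumsets of the slices of Kakeya sets, and Kakeya sets with structured slices

Let `n = d + 1 ≥ 2`, and let `K_t = {x ∈ ℝ^d : (x, t) ∈ K}` be the slices of `K ⊆ ℝ^n`.

(1) For every `ε > 0` there is `m = m(n, ε)` such that for ALL Kakeya sets `K ⊆ ℝ^n` the union `K^(m)`
of the `m`-fold sumsets of the slices, `K^(m)_t = K_t + ⋯ + K_t` (`m` summands, all at the same
height), has lower Minkowski dimension at least `n - ε`. Nothing is assumed about `K`.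

(2) If almost all slices of a bounded Kakeya set `K` are additively structured at small scales (unions
of few sets of small doubling: approximate groups, generalised progressions, convex sets, ..., which
may be different and unrelated for different heights), then `K` itself has lower Minkowski dimension
`n`.

(3) The same for families of `N` tubes, `N` arbitrary: let `K` be the union of `N` tubes of length `1`
and radius `δ` with `δ`-separated directions. If the slices of `K` are unions of at most `N ^ η` sets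
of doubling at most `N ^ η` at scale `δ`, except for a set of heights of measure at most `κ`, then the
volume of `K` is at least `c δ ^ (n - 1) N ^ (1 - ε)`.

Proof. Consider `k + 1` heights in arithmetic progression, `k` large. In (1), among the `2^i`-fold
sumsets, `i ≤ I`, of the `k + 1` slices there is one `i` for which all of them have small doubling at
scale `δ`. A line is a pair (position, slope) and its points at the heights `t + j h` are the values of
`k + 1` homomorphisms `x + j y`. So all lines through these sumsets lie in a set of lines of small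
doubling (`Pool.Agent.TH539.StrProj.inter`), for which the number of slopes is bounded by
Plünnecke–Ruzsa and a count of the representations of a line as a sum of `k + 1` lines which vanish
at one height each (`Pool.Agent.H217R3.AKV.main`): one of the `k + 1` sumsets has at least
`δ ^ (-d k / (k + 1) + o(1))` cells. In (2) and (3) this is applied to the slices themselves.
-/

set_option autoImplicit false

open MeasureTheory
open scoped Pointwise

namespace Pool.Agent.Results.MP_b1773a_an.SliceSumsets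

/-- `ℝ^n` -/
abbrev E (n : ℕ) := EuclideanSpace ℝ (Fin n)

/-- the point `(x, t)` of `ℝ^(d+1)` -/
noncomputable def pt {d : ℕ} (x : Fin d → ℝ) (t : ℝ) : E (d + 1) :=
  WithLp.toLp 2 (Fin.snoc x t : Fin (d + 1) → ℝ)

/-- the slice of `K` at height `t` -/
def slice {d : ℕ} (K : Set (E (d + 1))) (t : ℝ) : Set (Fin d → ℝ) := {x | pt x t ∈ K}

/-- the union of the `m`-fold sumsets of the slices of `K` -/
def sliceSum {d : ℕ} (m : ℕ) (K : Set (E (d + 1))) : Set (E (d + 1)) :=
  {p | ∃ (t : ℝ) (f : Fin m → Fin d → ℝ), (∀ i, pt (f i) t ∈ K) ∧ p = pt (∑ i, f i) t}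

/-- the cubes of side `δ` (of the grid `δ ℤ^d`) which are met by `X` -/
def cells {d : ℕ} (δ : ℝ) (X : Set (Fin d → ℝ)) : Set (Fin d → ℤ) := (fun x i => ⌊x i / δ⌋) '' X

/-- `X` is `L`-structured at scale `δ`: the set of the cubes of side `δ` met by `X` is the union of at
most `L` finite sets `D` with `|D + D| ≤ L |D|`. -/
def Structured {d : ℕ} (L δ : ℝ) (X : Set (Fin d → ℝ)) : Prop :=
  ∃ 𝒟 : Finset (Finset (Fin d → ℤ)), (𝒟.card : ℝ) ≤ L ∧
    (∀ D ∈ 𝒟, (D : Set (Fin d → ℤ)) ⊆ cells δ X ∧ ((D + D).card : ℝ) ≤ L * D.card) ∧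
    cells δ X ⊆ ⋃ D ∈ 𝒟, (D : Set (Fin d → ℤ))

/-- The slices of `K` are asymptotically structured: for all `η, κ > 0` and all small `δ`, the slices
`K_t` are `δ^(-η)`-structured at scale `δ`, except for a set of heights `t` of (outer) measure at
most `κ`. -/
def AsympStructured {d : ℕ} (K : Set (E (d + 1))) : Prop :=
  ∀ η κ : ℝ, 0 < η → 0 < κ → ∃ δ₀ : ℝ, 0 < δ₀ ∧ ∀ δ : ℝ, 0 < δ → δ < δ₀ →
    volume {t : ℝ | ¬ Structured (δ ^ (-η)) δ (slice K t)} ≤ ENNReal.ofReal κ

/-- `K` contains a unit segment in every direction -/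
def HasSegments {n : ℕ} (K : Set (E n)) : Prop :=
  ∀ ω : E n, ‖ω‖ = 1 → ∃ a : E n, ∀ t ∈ Set.Icc (0 : ℝ) 1, a + t • ω ∈ K

/-- `V ⊆ [0,1]^d` is a set of slopes of outer measure at least `lam`, and for every `v ∈ V` the set `K`
contains a segment of slope `v` over some interval of heights of length `ρ` -/
def HasSlopes {d : ℕ} (K : Set (E (d + 1))) (V : Set (Fin d → ℝ)) (lam ρ : ℝ) : Prop :=
  (∀ v ∈ V, ∀ i, v i ∈ Set.Icc (0 : ℝ) 1) ∧ ENNReal.ofReal lam ≤ volume V ∧
    ∀ v ∈ V, ∃ (a : Fin d → ℝ) (s : ℝ), ∀ t ∈ Set.Icc s (s + ρ), pt (fun i => a i + t * v i) t ∈ K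

/-- the closed cylinder of length `1` and radius `δ` with centre `a` and direction `e` -/
def tube {n : ℕ} (δ : ℝ) (a e : E n) : Set (E n) :=
  {y | |inner ℝ (y - a) e| ≤ 1 / 2 ∧ ‖(y - a) - (inner ℝ (y - a) e) • e‖ ≤ δ}

theorem result (d : ℕ) (hd : 1 ≤ d) :
    -- (1) the `m`-fold sumsets of the slices of every Kakeya set
    (∀ ε : ℝ, 0 < ε → ∃ m : ℕ, 1 ≤ m ∧
      (∀ R : ℝ, ∃ c : ℝ, 0 < c ∧ ∀ K : Set (E (d + 1)), K ⊆ Metric.closedBall 0 R →
        HasSegments K → ∀ δ : ℝ, 0 < δ → δ < 1 →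
        ENNReal.ofReal (c * δ ^ ε) ≤ volume (Metric.thickening δ (sliceSum m K))) ∧
      (∀ ρ : ℝ, 0 < ρ → ρ ≤ 1 → ∀ R lam : ℝ, 0 ≤ R → 0 < lam →
        ∃ c : ℝ, 0 < c ∧ ∀ K : Set (E (d + 1)), K ⊆ Metric.closedBall 0 R →
          ∀ V : Set (Fin d → ℝ), HasSlopes K V lam ρ → ∀ δ : ℝ, 0 < δ → δ < 1 →
          ENNReal.ofReal (c * δ ^ ε) ≤
            volume (Metric.thickening (√(d + 1) * δ) (sliceSum m K)))) ∧
    -- (2) Kakeya sets with structured slices
    (∀ K : Set (E (d + 1)), Bornology.IsBounded K → HasSegments K → AsympStructured K →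
      ∀ ε : ℝ, 0 < ε → ∃ c : ℝ, 0 < c ∧ ∀ δ : ℝ, 0 < δ → δ < 1 →
        ENNReal.ofReal (c * δ ^ ε) ≤ volume (Metric.thickening δ K)) ∧
    -- (3) families of tubes such that the union has structured slices
    (∀ ε : ℝ, 0 < ε → ε < 1 → ∃ η κ : ℝ, 0 < η ∧ 0 < κ ∧ ∀ R : ℝ, ∃ c : ℝ, 0 < c ∧
      ∀ δ : ℝ, 0 < δ → δ < 1 → ∀ (ι : Type) [Fintype ι] [Nonempty ι] (a e : ι → E (d + 1)),
        (∀ i, ‖e i‖ = 1) →
        (∀ (i : ι) (j : Fin d), 0 ≤ e i j.castSucc ∧ e i j.castSucc ≤ e i (Fin.last d)) →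
        (∀ i j, i ≠ j → δ ≤ ‖e i - e j‖) → (∀ i, tube δ (a i) (e i) ⊆ Metric.closedBall 0 R) →
        volume {t : ℝ | ¬ Structured ((Fintype.card ι : ℝ) ^ η) δ
          (slice (⋃ i, tube δ (a i) (e i)) t)} ≤ ENNReal.ofReal κ →
        ENNReal.ofReal (c * (δ ^ d * (Fintype.card ι : ℝ) ^ (1 - ε))) ≤
          volume (⋃ i, tube δ (a i) (e i))) := by
  refine ⟨fun ε hε => ?_, fun K hKb hK hst => Pool.Agent.N240.S.kakeya d hd K hKb hK hst,
    fun ε hε hε1 => ?_⟩
  · obtain ⟨m, hm, h⟩ := Pool.Agent.N240.S.sumquant d hd ε hε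
    refine ⟨m, hm, fun R => Pool.Agent.N240.S.sumkakeya' d hd ε hε m h R,
      fun ρ hρ hρ1 R lam hR hlam => ?_⟩
    obtain ⟨c, hc, h⟩ := h ρ hρ hρ1 R lam hR hlam
    exact ⟨c, hc, fun K hKR V hV => h K hKR V hV.1 hV.2.1 hV.2.2⟩
  · obtain ⟨η, κ, hη, hκ, h⟩ := Pool.Agent.N240.TS.fam d hd ε hε hε1
    refine ⟨η, κ, hη, hκ, fun R => ?_⟩
    obtain ⟨c, hc, h⟩ := h R
    refine ⟨c, hc, fun δ hδ hδ1 ι _ _ a e he hcone hsep hR hbad => ?_⟩
    exact h δ hδ hδ1 ι a e (fun i => ⟨he i, ((hcone i ⟨0, hd⟩).1.trans (hcone i ⟨0, hd⟩).2),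
      hcone i⟩) hsep hR hbad

end Pool.Agent.Results.MP_b1773a_an.SliceSumsets
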