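import Pool.Agent.N240.HK.Core
import Pool.Agent.N240.HK.Min
import Pool.Agent.N901.HK.SEP
import Pool.Agent.N482.HK.SHADE
import Pool.Agent.N950.HK.KAP
import Pool.Agent.N521.HK.WIN
import Pool.Agent.N572.HK.PIG

/-!
# MP_b1773a: Kakeya sets whose set of lines has a small sumset

Work in `ℝ^n = ℝ^d × ℝ`, `n = d + 1 ≥ 2`, with its Euclidean norm (`Space d`).  For every slope `v` in
a set `V` (`|v| ≤ 1`, positive outer measure) let a line with this slope be given by its position
`a v`, where it meets the hyperplane of height `0`.  The choice `a` is arbitrary.  Let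
`Γ = {(v, a v) : v ∈ V} ⊆ ℝ^(2d)` be the set of the lines.  The covering numbers of `Γ` at the scale
`δ` are at least about `δ^(-d)`, those of `Γ + Γ` are between about `δ^(-d)` and `δ^(-2d)`.

1. (Hausdorff dimension, Q1)  There is a function `κ` with `κ(δ) → ∞` as `δ → 0`, depending only on
   `d`, such that, if `Γ + Γ` can be covered by `κ(δ) δ^(-d)` balls of radius `δ` for all small `δ`,
   then every set `K` which contains a part of positive length of every line of `Γ` has Hausdorff
   dimension `n`.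
2. (Minkowski dimension, Q2)  If `Γ + Γ` has upper box dimension at most `d`, that is, if it can be
   covered by `δ^(-d-η)` balls of radius `δ` for all `η > 0` and all small `δ`, then every set `K`
   which contains a unit segment of every line of `Γ` (with midpoint at a bounded height) satisfies
   `|N_δ K| ≥ c_ε δ^ε` for all `ε > 0`: its lower Minkowski dimension is `n`.

For every `κ → ∞` there are Kakeya sets of measure zero whose set of lines satisfies the condition in
1: write `v = ∑ v_j / (B_1 ⋯ B_j)`, `0 ≤ v_j < B_j`, with `B_j` growing rapidly, and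
`a v = -∑ s_j v_j / (B_1 ⋯ B_j)`, the heights `s_j` running through finer and finer nets of `[0, 1]`;
the number of balls for `Γ + Γ` is at most `C 2^k δ^(-1)` for `B_1 ⋯ B_k ≤ 1/δ < B_1 ⋯ B_(k+1)`
(this is not proved here).

Ingredients: the theorem on tubes of bounded doubling at one scale, for arbitrary subfamilies and
shadings (`Pool.Agent.N250.GAP.roundL`: helpers 3 and 250), a diagonal argument for `κ`, pigeonholing
over scales; for 2 the theorem on tubes of large additive energy (`Pool.Agent.N3.ST.T.gen`: helpers 3,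
690, 73, 692, 645).
-/

set_option autoImplicit false

open MeasureTheory Set Filter Topology

namespace Pool.Agent.Results.MP_b1773a_an.SmallSumset

/-- Euclidean space `ℝ^d`. -/
abbrev Vec (d : ℕ) : Type := EuclideanSpace ℝ (Fin d)

/-- Euclidean space `ℝ^{d+1}`, written as `ℝ^d × ℝ` with the Euclidean norm. -/
abbrev Space (d : ℕ) : Type := WithLp 2 (Vec d × ℝ)

/-- The unit vector `(v, 1)/√(1+|v|²)`. -/
noncomputable def dir {d : ℕ} (v : Vec d) : Space d :=
  (√(1 + ‖v‖ ^ 2))⁻¹ • WithLp.toLp 2 (v, (1:ℝ))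

/-- The point of height `h` on the line with slope `v` and position `β`. -/
def linePoint {d : ℕ} (v β : Vec d) (h : ℝ) : Space d := WithLp.toLp 2 (β + h • v, h)

/-- The unit segment with slope `v`, position `β` and midpoint of height `h`. -/
def unitSegment {d : ℕ} (v β : Vec d) (h : ℝ) : Set (Space d) :=
  {y | ∃ s : ℝ, |s| ≤ 1 / 2 ∧ y = linePoint v β h + s • dir v}

/-- `V` is a set of slopes: `|v| ≤ 1` for `v ∈ V`, and `V` has positive outer measure. -/
def Slopes {d : ℕ} (V : Set (Vec d)) : Prop := (∀ v ∈ V, ‖v‖ ≤ 1) ∧ volume V ≠ 0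

/-- The sumset `Γ + Γ` of `Γ = {(v, a v) : v ∈ V}` can be covered by at most `N` balls of radius `δ`
(for the maximum of the Euclidean norms of the two components). -/
def SumsetCover {d : ℕ} (V : Set (Vec d)) (a : Vec d → Vec d) (δ N : ℝ) : Prop :=
  ∃ Z : Finset (Vec d × Vec d), (Z.card : ℝ) ≤ N ∧
    ∀ v ∈ V, ∀ w ∈ V, ∃ z ∈ Z, ‖v + w - z.1‖ ≤ δ ∧ ‖a v + a w - z.2‖ ≤ δ

/-- **Kakeya sets whose set of lines has a small sumset.** -/
theorem result (d : ℕ) (hd : 1 ≤ d) :
    -- 1. Hausdorff dimension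
    (∃ κ : ℝ → ℝ, Tendsto κ (𝓝[>] 0) atTop ∧
      ∀ (V : Set (Vec d)) (a : Vec d → Vec d) (K : Set (Space d)), Slopes V →
      (∀ᶠ δ in 𝓝[>] (0 : ℝ), SumsetCover V a δ (κ δ * δ ^ (-(d : ℝ)))) →
      (∀ v ∈ V, volume {t : ℝ | linePoint v (a v) t ∈ K} ≠ 0) → dimH K = d + 1) ∧
    -- 2. Minkowski dimension
    (∀ (V : Set (Vec d)) (a : Vec d → Vec d) (h : Vec d → ℝ) (K : Set (Space d)) (S : ℝ), Slopes V →
      (∀ η : ℝ, 0 < η → ∀ᶠ δ in 𝓝[>] (0 : ℝ), SumsetCover V a δ (δ ^ (-(d : ℝ) - η))) →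
      (∀ v ∈ V, |h v| ≤ S ∧ unitSegment v (a v) (h v) ⊆ K) →
      ∀ ε : ℝ, 0 < ε → ∃ c : ℝ, 0 < c ∧ ∀ δ : ℝ, 0 < δ → δ < 1 →
        ENNReal.ofReal (c * δ ^ ε) ≤ volume (Metric.cthickening δ K)) := by
  constructor
  · obtain ⟨κ, hκ1, hκt, hκ⟩ := Pool.Agent.N240.HK.core Pool.Agent.N901.HK.SEP.main
      Pool.Agent.N482.HK.main Pool.Agent.N950.HK.main Pool.Agent.N521.HK.WIN.main
      Pool.Agent.N572.HK.PIG.main d hd
    refine ⟨κ, hκt, ?_⟩
    intro V a K hV hZ hK
    apply le_antisymm
    · have h1 : dimH K ≤ dimH (Set.univ : Set (Space d)) := dimH_mono (Set.subset_univ _)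
      have h2 : dimH (Set.univ : Set (Space d)) = (Module.finrank ℝ (Space d) : ENNReal) :=
        Real.dimH_univ_eq_finrank (Space d)
      have hfr : Module.finrank ℝ (Space d) = d + 1 := by
        rw [(WithLp.linearEquiv 2 ℝ (Vec d × ℝ)).finrank_eq, Module.finrank_prod,
          finrank_euclideanSpace_fin, Module.finrank_self]
      rw [h2, hfr] at h1
      refine h1.trans (le_of_eq ?_)
      push_cast
      rfl
    · have h1 := hκ V a K hV.1 hV.2 hK (by
        filter_upwards [hZ, self_mem_nhdsWithin] with δ hδ hδ0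
        obtain ⟨Z, hZ1, hZ2⟩ := hδ
        rw [mem_Ioi] at hδ0
        refine ⟨Z, ?_, hZ2⟩
        calc (Z.card : ℝ) * δ ^ d ≤ (κ δ * δ ^ (-(d : ℝ))) * δ ^ d :=
              mul_le_mul_of_nonneg_right hZ1 (by positivity)
          _ = κ δ * (δ ^ (-(d : ℝ)) * δ ^ (d : ℝ)) := by rw [Real.rpow_natCast]; ring
          _ = κ δ := by rw [← Real.rpow_add hδ0, neg_add_cancel, Real.rpow_zero, mul_one])
      refine le_trans (le_of_eq ?_) h1
      rw [ENNReal.ofReal_add (Nat.cast_nonneg _) zero_le_one, ENNReal.ofReal_natCast,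
        ENNReal.ofReal_one]
  · intro V a h K S hV hZ hK ε hε
    exact Pool.Agent.N240.HK.mink Pool.Agent.N901.HK.SEP.main d hd V a h K S hV.1 hV.2
      (fun v hv => (hK v hv).1) (fun v hv => (hK v hv).2) hZ ε hε

end Pool.Agent.Results.MP_b1773a_an.SmallSumset
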