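import Pool.Agent.N250.GAP.RoundL
import Pool.Agent.N240.KT.Main

set_option autoImplicit false

/-!
# MP_b1773a: the discretised Kakeya conjecture for families of segments of bounded doubling

Work in `ℝ^n = ℝ^d × ℝ`, `n = d + 1 ≥ 2`, with its Euclidean norm (`Space d`).  A unit segment is given
by its slope `v` (it is parallel to `(v, 1)`, `|v| ≤ 1`), its position `β` (its line meets the hyperplane
of height `0` in the point `(β, 0)`) and the height `h` of its midpoint; its closed `δ`-neighbourhood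
with flat ends is a `δ`-tube.

The pairs `(v i, β i) ∈ ℝ^d × ℝ^d`, `i ∈ ι`, are the parameters of the family.  The family has doubling
at most `K` at the scale `δ` if the sums of two parameters can be covered by `K · #ι` balls of radius
`δ`.  There is no other condition: the positions `β i` are arbitrary, no regularity and no relation
between position and slope is assumed.  Examples are the families whose parameters lie in a
generalised arithmetic progression of bounded rank (with arbitrary, non proper, generators) in which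
they are dense.

For such families, and for ALL their subfamilies `J`, we prove the Kakeya inequalities of the
conjecture:

1. `‖∑_J 1_T‖_q ≤ C δ^((n-1)/q) (#J)^(1 - 1/(q(n-1)))` for all `q > n/(n-1)`, without loss;
2. every set which contains the proportion `λ` of the volume of every tube of `J` has volume at least
   `c_ε λ^n δ^(n-1) (#J)^(1-ε)` (arbitrary shadings, the form used for Hausdorff dimension);
3. the `δ`-neighbourhood of every set which contains the segments of `J` has volume at least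
   `c_ε δ^(n-1) (#J)^(1-ε)` (the form used for Minkowski dimension).
-/

open MeasureTheory Set

namespace Pool.Agent.Results.MP_b1773a_an.StructuredTubes

/-- Euclidean space `ℝ^d`. -/
abbrev Vec (d : ℕ) : Type := EuclideanSpace ℝ (Fin d)

/-- Euclidean space `ℝ^{d+1}`, written as `ℝ^d × ℝ` with the Euclidean norm. -/
abbrev Space (d : ℕ) : Type := WithLp 2 (Vec d × ℝ)

/-- The closed tube of length `1` and radius `δ` with centre `a` and axis direction `e`. -/
def tube {d : ℕ} (δ : ℝ) (e a : Space d) : Set (Space d) :=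
  {y | |inner ℝ (y - a) e| ≤ 1 / 2 ∧ ‖(y - a) - (inner ℝ (y - a) e : ℝ) • e‖ ≤ δ}

/-- The unit vector `(v, 1)/√(1+|v|²)`. -/
noncomputable def dir {d : ℕ} (v : Vec d) : Space d :=
  (√(1 + ‖v‖ ^ 2))⁻¹ • WithLp.toLp 2 (v, (1:ℝ))

/-- The point of height `h` on the line with slope `v` and position `β`. -/
def linePoint {d : ℕ} (v β : Vec d) (h : ℝ) : Space d := WithLp.toLp 2 (β + h • v, h)

/-- The unit segment with slope `v`, position `β` and midpoint of height `h`. -/
def unitSegment {d : ℕ} (v β : Vec d) (h : ℝ) : Set (Space d) :=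
  {y | ∃ s : ℝ, |s| ≤ 1 / 2 ∧ y = linePoint v β h + s • dir v}

/-- The slopes `v i` and the heights `h i` of the midpoints are admissible: `|v i| ≤ 1`, `|h i| ≤ S`,
and the directions are `δ`-separated. -/
def Admissible (S δ : ℝ) {d : ℕ} {ι : Type} (v : ι → Vec d) (h : ι → ℝ) : Prop :=
  (∀ i, ‖v i‖ ≤ 1) ∧ (∀ i, |h i| ≤ S) ∧ ∀ i j, i ≠ j → δ ≤ ‖dir (v i) - dir (v j)‖

/-- The set of the parameters `(v i, β i)` has doubling at most `K` at the scale `δ`: the sums of two
parameters lie in the union of at most `K · #ι` balls of radius `δ` (for the maximum of the Euclidean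
norms of the two components). -/
def SmallDoubling (K δ : ℝ) {d : ℕ} {ι : Type} [Fintype ι] (v β : ι → Vec d) : Prop :=
  ∃ Z : Finset (Vec d × Vec d), (Z.card : ℝ) ≤ K * Fintype.card ι ∧
    ∀ i j, ∃ z ∈ Z, ‖v i + v j - z.1‖ ≤ δ ∧ ‖β i + β j - z.2‖ ≤ δ

/-- The `δ`-tube around the `i`-th segment. -/
def tubeAt (δ : ℝ) {d : ℕ} {ι : Type} (v β : ι → Vec d) (h : ι → ℝ) (i : ι) : Set (Space d) :=
  tube δ (dir (v i)) (linePoint (v i) (β i) (h i))

/-- The sum of the indicators of the tubes with indices in `J`. -/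
noncomputable def tubeSum (δ : ℝ) {d : ℕ} {ι : Type} (v β : ι → Vec d) (h : ι → ℝ) (J : Finset ι)
    (y : Space d) : ℝ :=
  ∑ i ∈ J, (tubeAt δ v β h i).indicator (fun _ => (1 : ℝ)) y

theorem segment_nhd {d : ℕ} {δ : ℝ} (v β : Vec d) (h : ℝ) {X : Set (Space d)}
    (hX : unitSegment v β h ⊆ X) :
    tube δ (dir v) (linePoint v β h) ⊆ Metric.cthickening δ X := by
  intro y hy
  obtain ⟨h1, h2⟩ := hy
  refine Metric.mem_cthickening_of_dist_le y (linePoint v β h +
    (inner ℝ (y - linePoint v β h) (dir v) : ℝ) • dir v) δ X (hX ⟨_, h1, rfl⟩) ?_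
  rw [dist_eq_norm, ← sub_sub]
  exact h2

theorem tube_vol {d : ℕ} : ∃ a : ℝ, 0 < a ∧ ∀ δ : ℝ, 0 < δ → δ < 1 → ∀ v β : Vec d, ‖v‖ ≤ 1 → ∀ h : ℝ,
    ENNReal.ofReal (a * δ ^ d) ≤ volume (tube δ (dir v) (linePoint v β h)) := by
  have hb : 0 < (volume (Metric.closedBall (0 : Vec d) 1)).toReal :=
    ENNReal.toReal_pos (Metric.measure_closedBall_pos volume _ one_pos).ne'
      measure_closedBall_lt_top.ne
  refine ⟨1 / 4 * ((1 / 4) ^ d * (volume (Metric.closedBall (0 : Vec d) 1)).toReal), by positivity, ?_⟩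
  intro δ hδ hδ1 v β hv h
  have h1 := Pool.Agent.H803R2.KakFTO.le_volume_tube hδ hδ1 (fun _ => β) hv h
  refine le_trans (le_of_eq ?_) h1
  have e1 : volume (Metric.closedBall (0 : Vec d) (δ / 4)) =
      ENNReal.ofReal ((δ / 4) ^ d) * volume (Metric.closedBall (0 : Vec d) 1) := by
    rw [Measure.addHaar_closedBall' volume (0 : Vec d) (by positivity : 0 ≤ δ / 4),
      finrank_euclideanSpace_fin]
  have e2 : volume (Metric.closedBall (0 : Vec d) 1) =
      ENNReal.ofReal (volume (Metric.closedBall (0 : Vec d) 1)).toReal :=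
    (ENNReal.ofReal_toReal measure_closedBall_lt_top.ne).symm
  rw [e1, e2, ← ENNReal.ofReal_mul (by positivity), ← ENNReal.ofReal_mul (by positivity)]
  congr 1
  rw [ENNReal.toReal_ofReal hb.le, div_pow, div_pow]
  ring

/-- Inequality 1 with the exponent `q`, for families of doubling at most `K`. -/
def TubeInequality (d : ℕ) (K S q : ℝ) : Prop :=
  ∃ C : ℝ, 0 < C ∧ ∀ δ : ℝ, 0 < δ → δ < 1 →
    ∀ (ι : Type) [Fintype ι] (v β : ι → Vec d) (h : ι → ℝ),
      Admissible S δ v h → SmallDoubling K δ v β → ∀ J : Finset ι,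
      eLpNorm (tubeSum δ v β h J) (ENNReal.ofReal q) volume ≤
        ENNReal.ofReal (C * δ ^ ((d : ℝ) / q) * (J.card : ℝ) ^ (1 - 1 / (q * d)))

/-- Inequality 2 with the loss `ε`: sets which contain the proportion `lam` of every tube. -/
def ShadedUnions (d : ℕ) (K S ε : ℝ) : Prop :=
  ∃ c : ℝ, 0 < c ∧ ∀ δ : ℝ, 0 < δ → δ < 1 →
    ∀ (ι : Type) [Fintype ι] (v β : ι → Vec d) (h : ι → ℝ),
      Admissible S δ v h → SmallDoubling K δ v β → ∀ (J : Finset ι) (X : Set (Space d)) (lam : ℝ),
      0 ≤ lam → lam ≤ 1 →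
      (∀ i ∈ J, ENNReal.ofReal lam * volume (tubeAt δ v β h i) ≤ volume (tubeAt δ v β h i ∩ X)) →
      ENNReal.ofReal (c * lam ^ (d + 1) * δ ^ d * (J.card : ℝ) ^ (1 - ε)) ≤ volume X

/-- Inequality 3 with the loss `ε`: neighbourhoods of sets which contain the segments. -/
def Neighbourhoods (d : ℕ) (K S ε : ℝ) : Prop :=
  ∃ c : ℝ, 0 < c ∧ ∀ δ : ℝ, 0 < δ → δ < 1 →
    ∀ (ι : Type) [Fintype ι] (v β : ι → Vec d) (h : ι → ℝ),
      Admissible S δ v h → SmallDoubling K δ v β → ∀ (J : Finset ι) (X : Set (Space d)),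
      (∀ i ∈ J, unitSegment (v i) (β i) (h i) ⊆ X) →
      ENNReal.ofReal (c * δ ^ d * (J.card : ℝ) ^ (1 - ε)) ≤ volume (Metric.cthickening δ X)

theorem result (d : ℕ) (hd : 1 ≤ d) (K S : ℝ) (hK : 1 ≤ K) (hS : 0 ≤ S) :
    (∀ q : ℝ, ((d : ℝ) + 1) / d < q → TubeInequality d K S q) ∧
    (∀ ε : ℝ, 0 < ε → ε < 1 → ShadedUnions d K S ε) ∧
    ∀ ε : ℝ, 0 < ε → ε < 1 → Neighbourhoods d K S ε := by
  have hd0 : (0 : ℝ) < d := by exact_mod_cast hd
  have main : ∀ q : ℝ, ((d : ℝ) + 1) / d < q → TubeInequality d K S q := by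
    intro q hq
    obtain ⟨C, hC, hmain⟩ := Pool.Agent.N250.GAP.roundL (d := d) hd hK hS hq
    refine ⟨C, hC, ?_⟩
    intro δ hδ hδ1 ι _ v β h hA hD J
    obtain ⟨Z, hZ, hZ'⟩ := hD
    exact hmain δ hδ hδ1 ι v (fun i => β i + h i • v i) h hA.1 hA.2.1 hA.2.2
      ⟨Z, hZ, fun i j => by
        obtain ⟨z, hz, h1, h2⟩ := hZ' i j
        refine ⟨z, hz, h1, ?_⟩
        simpa using h2⟩ J
  have hshade : ∀ ε : ℝ, 0 < ε → ε < 1 → ShadedUnions d K S ε := by
   intro ε hε hε1
   set q : ℝ := 1 + 1 / (d * (1 - ε)) with hq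
   have he : 0 < 1 - ε := by linarith
   have hqd : ((d : ℝ) + 1) / d < q := by
     rw [hq, add_div, div_self hd0.ne']
     have : 1 / (d : ℝ) < 1 / (d * (1 - ε)) := by
       apply one_div_lt_one_div_of_lt (by positivity)
       nlinarith
     linarith
   have hq1 : 1 < q := by
     have : (1 : ℝ) ≤ ((d : ℝ) + 1) / d := by rw [le_div_iff₀ hd0]; linarith
     linarith
   obtain ⟨C, hC, hmain⟩ := main q hqd
   obtain ⟨a, ha, hvol⟩ := tube_vol (d := d)
   have hc0 : 0 < min 1 ((a / C) ^ (d + 1)) := lt_min one_pos (by positivity)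
   refine ⟨min 1 ((a / C) ^ (d + 1)), hc0, ?_⟩
   intro δ hδ hδ1 ι _ v β h hA hD J X lam hl hl1 hX
   rcases J.eq_empty_or_nonempty with hJ | hJ
   · rw [hJ, Finset.card_empty, Nat.cast_zero, Real.zero_rpow he.ne', mul_zero, ENNReal.ofReal_zero]
     exact bot_le
   have hN : (0 : ℝ) < J.card := by exact_mod_cast hJ.card_pos
   by_cases htop : volume X = ⊤
   · rw [htop]; exact le_top
   set E := toMeasurable volume X with hE
   have hEX : volume E = volume X := measure_toMeasurable X
   have h1 := Pool.Agent.N240.KT.sum_inter_le volume (fun i => tubeAt δ v β h i)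
     (fun i => (Pool.Agent.H810R3.Tub.tube_closed δ _ _).measurableSet) J hq1
     (hmain δ hδ hδ1 ι v β h hA hD J) E (measurableSet_toMeasurable _ _)
   have h2 : ENNReal.ofReal (lam * (a * δ ^ d) * J.card) ≤
       ∑ i ∈ J, volume (tubeAt δ v β h i ∩ E) := by
     calc ENNReal.ofReal (lam * (a * δ ^ d) * J.card)
         = ∑ i ∈ J, ENNReal.ofReal lam * ENNReal.ofReal (a * δ ^ d) := by
           rw [Finset.sum_const, nsmul_eq_mul, ← ENNReal.ofReal_mul hl, mul_comm,
             ENNReal.ofReal_mul (by positivity), ENNReal.ofReal_natCast]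
       _ ≤ ∑ i ∈ J, volume (tubeAt δ v β h i ∩ E) := by
           apply Finset.sum_le_sum
           intro i hi
           refine le_trans ?_ ((hX i hi).trans (measure_mono
             (inter_subset_inter_right _ (subset_toMeasurable volume X))))
           gcongr
           exact hvol δ hδ hδ1 (v i) (β i) (hA.1 i) (h i)
   have h3 := h2.trans h1
   rw [hEX] at h3
   have hm : volume X = ENNReal.ofReal (volume X).toReal := (ENNReal.ofReal_toReal htop).symm
   have hθ : 0 ≤ 1 - 1 / q := by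
     have : 1 / q ≤ 1 := by rw [div_le_one (by linarith)]; exact hq1.le
     linarith
   have hB0 : 0 ≤ C * δ ^ ((d : ℝ) / q) * (J.card : ℝ) ^ (1 - 1 / (q * d)) :=
     mul_nonneg (mul_nonneg hC.le (Real.rpow_nonneg hδ.le _)) (Real.rpow_nonneg hN.le _)
   have hM0 : 0 ≤ (volume X).toReal ^ (1 - 1 / q) := Real.rpow_nonneg ENNReal.toReal_nonneg _
   rw [hm, ENNReal.ofReal_rpow_of_nonneg ENNReal.toReal_nonneg hθ,
     ← ENNReal.ofReal_mul hB0, ENNReal.ofReal_le_ofReal_iff (mul_nonneg hB0 hM0)] at h3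
   have h4 := Pool.Agent.N240.KT.real_part hd hε hε1 ha hC hq hδ hl hl1 hN ENNReal.toReal_nonneg h3
   rw [hm]
   exact ENNReal.ofReal_le_ofReal h4
  refine ⟨main, hshade, fun ε hε hε1 => ?_⟩
  obtain ⟨c, hc, hs⟩ := hshade ε hε hε1
  refine ⟨c, hc, fun δ hδ hδ1 ι _ v β h hA hD J X hX => ?_⟩
  have h5 := hs δ hδ hδ1 ι v β h hA hD J (Metric.cthickening δ X) 1 zero_le_one le_rfl
    (fun i hi => by
      rw [ENNReal.ofReal_one, one_mul]
      exact measure_mono (subset_inter le_rfl (segment_nhd (v i) (β i) (h i) (hX i hi))))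
  simpa using h5

end Pool.Agent.Results.MP_b1773a_an.StructuredTubes
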